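import Mathlib.Algebra.Category.ModuleCat.Basic
import Mathlib.Topology.Order
import Mathlib.Order.CompletePartialOrder

set_option autoImplicit false

/-!
Definitions for the rep-Zariski spectrum.  Everything is set up for left modules over an arbitrary
ring `S`; right `R`-modules are the left modules over `S = Rᵐᵒᵖ`.
-/

namespace Pool.Agent.MP_9f28a9_al

universe u

/-- A positive-primitive formula in one free variable `x`:
`∃ y_1 … y_n, ⋀_{j < m} (a_j x + ∑_i b_{j i} y_i = 0)`. -/
structure PP (S : Type u) [Ring S] : Type u where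
  /-- number of equations -/
  m : ℕ
  /-- number of bound variables -/
  n : ℕ
  /-- coefficients of the free variable -/
  a : Fin m → S
  /-- coefficients of the bound variables -/
  b : Fin m → Fin n → S

/-- The solution set `φ(M)` of a pp formula in a module `M`. -/
def PP.sol {S : Type u} [Ring S] (φ : PP S) (M : Type u) [AddCommGroup M] [Module S M] : Set M :=
  {x | ∃ y : Fin φ.n → M, ∀ j, φ.a j • x + ∑ i, φ.b j i • y i = 0}

/-- A pp-pair `φ/ψ`: two pp formulas with `ψ(M) ⊆ φ(M)` for every module `M`. -/
structure PPPair (S : Type u) [Ring S] : Type u where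
  /-- the upper formula -/
  φ : PP S
  /-- the lower formula -/
  ψ : PP S
  /-- `ψ ≤ φ` -/
  le : ∀ (M : Type u) [AddCommGroup M] [Module S M], ψ.sol M ⊆ φ.sol M

/-- A pure embedding: an injective linear map `f : A → B` such that every finite system of linear
equations with constants from `A` that is solvable in `B` is solvable in `A`. -/
def IsPureEmbedding {S : Type u} [Ring S] {A B : Type u} [AddCommGroup A] [Module S A]
    [AddCommGroup B] [Module S B] (f : A →ₗ[S] B) : Prop :=
  Function.Injective f ∧
    ∀ (m n : ℕ) (b : Fin m → Fin n → S) (c : Fin m → A),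
      (∃ y : Fin n → B, ∀ j, ∑ i, b j i • y i = f (c j)) →
        ∃ y : Fin n → A, ∀ j, ∑ i, b j i • y i = c j

/-- A module is pure-injective if it is injective over pure embeddings. -/
def IsPureInjective (S : Type u) [Ring S] (N : Type u) [AddCommGroup N] [Module S N] : Prop :=
  ∀ (A B : Type u) [AddCommGroup A] [Module S A] [AddCommGroup B] [Module S B] (f : A →ₗ[S] B),
    IsPureEmbedding f → ∀ g : A →ₗ[S] N, ∃ h : B →ₗ[S] N, h ∘ₗ f = g

/-- A module is indecomposable if it is nonzero and is not the direct sum of two nonzero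
submodules. -/
def IsIndecomposable (S : Type u) [Ring S] (N : Type u) [AddCommGroup N] [Module S N] : Prop :=
  Nontrivial N ∧ ∀ P Q : Submodule S N, IsCompl P Q → P = ⊥ ∨ Q = ⊥

/-- The indecomposable pure-injective modules. -/
def Pinj (S : Type u) [Ring S] : Type (u + 1) :=
  {N : ModuleCat.{u} S // IsIndecomposable S N ∧ IsPureInjective S N}

/-- Isomorphism of indecomposable pure-injective modules. -/
def isoSetoid (S : Type u) [Ring S] : Setoid (Pinj S) where
  r N N' := Nonempty (N.1 ≃ₗ[S] N'.1)
  iseqv := ⟨fun _ => ⟨LinearEquiv.refl _ _⟩, fun ⟨e⟩ => ⟨e.symm⟩, fun ⟨e⟩ ⟨e'⟩ => ⟨e.trans e'⟩⟩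

/-- The points of the spectrum: isomorphism classes of indecomposable pure-injective modules. -/
def Zar (S : Type u) [Ring S] : Type (u + 1) := Quotient (isoSetoid S)

/-- The set `(φ/ψ)` of points `N` with `ψ(N) ⊊ φ(N)`. -/
def PPPair.supp {S : Type u} [Ring S] (p : PPPair S) : Set (Zar S) :=
  {x | ∃ N : Pinj S, Quotient.mk (isoSetoid S) N = x ∧ p.ψ.sol N.1 ⊂ p.φ.sol N.1}

/-- The rep-Zariski topology, generated by the open sets `[φ/ψ]`, the complements of the sets
`(φ/ψ)`. -/
instance zarTopology (S : Type u) [Ring S] : TopologicalSpace (Zar S) :=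
  TopologicalSpace.generateFrom {U | ∃ p : PPPair S, U = p.suppᶜ}

end Pool.Agent.MP_9f28a9_al
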