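import Mathlib.Data.Fintype.BigOperators
import Mathlib.LinearAlgebra.Prod
import Mathlib.Tactic.Module
import Pool.Agent.MP_9f28a9_al.Defs

set_option autoImplicit false

namespace Pool.Agent.MP_9f28a9_al

/-- `T` is closed under the affine operations, i.e. empty or a coset of a submodule. -/
def Aff (A : Type) [CommRing A] {N : Type} [AddCommGroup N] [Module A N] (T : Set N) : Prop :=
  ∀ x ∈ T, ∀ y ∈ T, ∀ z ∈ T, ∀ r : A, x + r • (y - z) ∈ T

/-- A strong form of linear compactness: pairwise meeting cosets have a common point. -/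
def LC (A : Type) [CommRing A] (N : Type) [AddCommGroup N] [Module A N] : Prop :=
  ∀ 𝒯 : Set (Set N), (∀ T ∈ 𝒯, Aff A T) → (∀ T ∈ 𝒯, ∀ T' ∈ 𝒯, (T ∩ T').Nonempty) →
    ∃ z, ∀ T ∈ 𝒯, z ∈ T

variable {A : Type} [CommRing A]

/-- Relations between `B` and `N` that preserve solvability of finite linear systems. -/
def Good {B N : Type} [AddCommGroup B] [Module A B] [AddCommGroup N] [Module A N]
    (G : Submodule A (B × N)) : Prop :=
  ∀ (κ ι : Type) [Fintype κ] [Fintype ι] (b : κ → ι → A) (c : κ → B × N), (∀ j, c j ∈ G) →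
    (∃ y : ι → B, ∀ j, ∑ i, b j i • y i = (c j).1) → ∃ y : ι → N, ∀ j, ∑ i, b j i • y i = (c j).2

lemma pure_fintype {A₁ B : Type} [AddCommGroup A₁] [Module A A₁] [AddCommGroup B] [Module A B]
    {f : A₁ →ₗ[A] B} (hf : IsPureEmbedding f) (κ ι : Type) [Fintype κ] [Fintype ι]
    (b : κ → ι → A) (c : κ → A₁) (h : ∃ y : ι → B, ∀ j, ∑ i, b j i • y i = f (c j)) :
    ∃ y : ι → A₁, ∀ j, ∑ i, b j i • y i = c j := by
  obtain ⟨y, hy⟩ := h
  let eκ := (Fintype.equivFin κ).symm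
  let eι := (Fintype.equivFin ι).symm
  obtain ⟨y', hy'⟩ := hf.2 _ _ (fun j i => b (eκ j) (eι i)) (fun j => c (eκ j))
    ⟨fun i => y (eι i), fun j => by
      rw [← hy (eκ j)]
      exact Equiv.sum_comp eι (fun i => b (eκ j) i • y i)⟩
  refine ⟨fun i => y' (eι.symm i), fun j => ?_⟩
  have := hy' (eκ.symm j)
  simp only [Equiv.apply_symm_apply] at this
  rw [← this, ← Equiv.sum_comp eι]
  simp

section
variable {B N : Type} [AddCommGroup B] [Module A B] [AddCommGroup N] [Module A N]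

lemma good_sSup (c : Set (Submodule A (B × N))) (hc : ∀ G ∈ c, Good G)
    (hchain : IsChain (· ≤ ·) c) (hne : c.Nonempty) : Good (sSup c) := by
  intro κ ι _ _ b d hd hsol
  have hdir : DirectedOn (· ≤ ·) c := hchain.directedOn
  have key : ∀ s : Finset κ, ∃ G ∈ c, ∀ j ∈ s, d j ∈ G := by
    classical
    intro s
    induction s using Finset.induction_on with
    | empty => obtain ⟨G, hG⟩ := hne; exact ⟨G, hG, by simp⟩
    | insert j s _ ih =>
      obtain ⟨G, hG, hGs⟩ := ih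
      obtain ⟨G', hG', hj⟩ := (Submodule.mem_sSup_of_directed hne hdir).1 (hd j)
      obtain ⟨G'', hG'', h1, h2⟩ := hdir G hG G' hG'
      refine ⟨G'', hG'', fun k hk => ?_⟩
      rcases Finset.mem_insert.1 hk with rfl | hk
      · exact h2 hj
      · exact h1 (hGs k hk)
  obtain ⟨G, hG, hGs⟩ := key Finset.univ
  exact hc G hG κ ι b d (fun j => hGs j (Finset.mem_univ j)) hsol

/-- The set of values that a finite system allows for the image of `b₀`. -/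
def allowed {κ ι : Type} [Fintype ι] (b : κ → ι → A) (g : κ → B × N) (r : κ → A) : Set N :=
  {z | ∃ y : ι → N, ∀ j, ∑ i, b j i • y i = (g j).2 + r j • z}

lemma allowed_aff {κ ι : Type} [Fintype ι] (b : κ → ι → A) (g : κ → B × N) (r : κ → A) :
    Aff A (allowed b g r) := by
  rintro x ⟨y₁, h₁⟩ x' ⟨y₂, h₂⟩ x'' ⟨y₃, h₃⟩ s
  refine ⟨fun i => y₁ i + s • (y₂ i - y₃ i), fun j => ?_⟩
  have : ∑ i, b j i • (y₁ i + s • (y₂ i - y₃ i)) =
      ∑ i, b j i • y₁ i + s • (∑ i, b j i • y₂ i - ∑ i, b j i • y₃ i) := by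
    rw [← Finset.sum_sub_distrib, Finset.smul_sum, ← Finset.sum_add_distrib]
    refine Finset.sum_congr rfl fun i _ => ?_
    module
  rw [this, h₁, h₂, h₃]
  module

lemma allowed_inter {G : Submodule A (B × N)} (hG : Good G) (b₀ : B)
    {κ₁ ι₁ : Type} [Fintype κ₁] [Fintype ι₁] (b₁ : κ₁ → ι₁ → A) (g₁ : κ₁ → B × N) (r₁ : κ₁ → A)
    (hg₁ : ∀ j, g₁ j ∈ G) (hs₁ : ∃ y : ι₁ → B, ∀ j, ∑ i, b₁ j i • y i = (g₁ j).1 + r₁ j • b₀)
    {κ₂ ι₂ : Type} [Fintype κ₂] [Fintype ι₂] (b₂ : κ₂ → ι₂ → A) (g₂ : κ₂ → B × N) (r₂ : κ₂ → A)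
    (hg₂ : ∀ j, g₂ j ∈ G) (hs₂ : ∃ y : ι₂ → B, ∀ j, ∑ i, b₂ j i • y i = (g₂ j).1 + r₂ j • b₀) :
    (allowed b₁ g₁ r₁ ∩ allowed b₂ g₂ r₂).Nonempty := by
  obtain ⟨y₁, hy₁⟩ := hs₁
  obtain ⟨y₂, hy₂⟩ := hs₂
  let b : κ₁ ⊕ κ₂ → Option (ι₁ ⊕ ι₂) → A := fun j i =>
    match j, i with
    | Sum.inl j, none => -r₁ j
    | Sum.inl j, some (Sum.inl i) => b₁ j i
    | Sum.inl _, some (Sum.inr _) => 0
    | Sum.inr j, none => -r₂ j
    | Sum.inr _, some (Sum.inl _) => 0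
    | Sum.inr j, some (Sum.inr i) => b₂ j i
  obtain ⟨y, hy⟩ := hG (κ₁ ⊕ κ₂) (Option (ι₁ ⊕ ι₂)) b (Sum.elim g₁ g₂)
    (by rintro (j | j); exacts [hg₁ j, hg₂ j])
    ⟨fun i => match i with
      | none => b₀
      | some (Sum.inl i) => y₁ i
      | some (Sum.inr i) => y₂ i, by
      rintro (j | j)
      · simp [b, Fintype.sum_option, Fintype.sum_sum_type, hy₁]
      · simp [b, Fintype.sum_option, Fintype.sum_sum_type, hy₂]⟩
  refine ⟨y none, ⟨fun i => y (some (Sum.inl i)), fun j => ?_⟩,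
    ⟨fun i => y (some (Sum.inr i)), fun j => ?_⟩⟩
  · have := hy (Sum.inl j)
    simp only [b, Fintype.sum_option, Fintype.sum_sum_type, zero_smul, Finset.sum_const_zero,
      add_zero, Sum.elim_inl, neg_smul] at this
    rw [← this]; abel
  · have := hy (Sum.inr j)
    simp only [b, Fintype.sum_option, Fintype.sum_sum_type, zero_smul, Finset.sum_const_zero,
      zero_add, Sum.elim_inr, neg_smul] at this
    rw [← this]; abel

lemma good_extend (hN : LC A N) {G : Submodule A (B × N)} (hG : Good G) (b₀ : B) :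
    ∃ z : N, Good (G ⊔ Submodule.span A {(b₀, z)}) := by
  let 𝒯 : Set (Set N) := {T | ∃ (κ ι : Type) (_ : Fintype κ) (_ : Fintype ι) (b : κ → ι → A)
    (g : κ → B × N) (r : κ → A), (∀ j, g j ∈ G) ∧
      (∃ y : ι → B, ∀ j, ∑ i, b j i • y i = (g j).1 + r j • b₀) ∧ T = allowed b g r}
  obtain ⟨z, hz⟩ := hN 𝒯
    (by rintro T ⟨κ, ι, _, _, b, g, r, -, -, rfl⟩; exact allowed_aff b g r)
    (by
      rintro T ⟨κ₁, ι₁, _, _, b₁, g₁, r₁, hg₁, hs₁, rfl⟩ T' ⟨κ₂, ι₂, _, _, b₂, g₂, r₂, hg₂, hs₂, rfl⟩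
      exact allowed_inter hG b₀ b₁ g₁ r₁ hg₁ hs₁ b₂ g₂ r₂ hg₂ hs₂)
  refine ⟨z, ?_⟩
  intro κ ι _ _ b c hc hsol
  have hdec : ∀ j, ∃ g ∈ G, ∃ r : A, c j = g + r • (b₀, z) := by
    intro j
    obtain ⟨g, hg, w, hw, hsum⟩ := Submodule.mem_sup.1 (hc j)
    obtain ⟨r, rfl⟩ := Submodule.mem_span_singleton.1 hw
    exact ⟨g, hg, r, hsum.symm⟩
  choose g hg r hr using hdec
  have hmem : allowed b g r ∈ 𝒯 := by
    refine ⟨κ, ι, inferInstance, inferInstance, b, g, r, hg, ?_, rfl⟩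
    obtain ⟨y, hy⟩ := hsol
    exact ⟨y, fun j => by rw [hy j, hr j]; simp⟩
  obtain ⟨y, hy⟩ := hz _ hmem
  exact ⟨y, fun j => by rw [hy j, hr j]; simp⟩

lemma good_fun {G : Submodule A (B × N)} (hG : Good G) {z : N} (hz : ((0 : B), z) ∈ G) :
    z = 0 := by
  obtain ⟨y, hy⟩ := hG Unit Empty (fun _ i => i.elim) (fun _ => (0, z)) (fun _ => hz)
    ⟨fun i => i.elim, fun _ => by simp⟩
  simpa using (hy ()).symm

end

theorem isPureInjective_of_LC {N : Type} [AddCommGroup N] [Module A N] (hN : LC A N) :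
    IsPureInjective A N := by
  intro A₁ B _ _ _ _ f hf g
  let G₀ : Submodule A (B × N) := LinearMap.range (f.prod g)
  have hG₀ : Good G₀ := by
    intro κ ι _ _ b c hc hsol
    choose a ha using hc
    obtain ⟨y, hy⟩ := pure_fintype hf κ ι b a (by
      obtain ⟨y, hy⟩ := hsol
      exact ⟨y, fun j => by rw [hy j, ← ha j]; rfl⟩)
    refine ⟨fun i => g (y i), fun j => ?_⟩
    rw [← ha j]
    simp only [← map_smul, ← map_sum, hy j]
    rfl
  obtain ⟨G, hG₀G, hmax⟩ := zorn_le_nonempty₀ {G : Submodule A (B × N) | Good G}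
    (fun c hc hchain y hy => ⟨sSup c, good_sSup c hc hchain ⟨y, hy⟩, fun z hz => le_sSup hz⟩)
    G₀ hG₀
  have hG : Good G := hmax.prop
  have htot : ∀ b₀ : B, ∃ z, (b₀, z) ∈ G := by
    intro b₀
    obtain ⟨z, hz⟩ := good_extend hN hG b₀
    have := hmax.le_of_ge hz le_sup_left
    exact ⟨z, this (Submodule.mem_sup_right (Submodule.mem_span_singleton_self _))⟩
  have huniq : ∀ b₀ z z', (b₀, z) ∈ G → (b₀, z') ∈ G → z = z' := by
    intro b₀ z z' h h'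
    have := G.sub_mem h h'
    rw [Prod.mk_sub_mk, sub_self] at this
    exact sub_eq_zero.1 (good_fun hG this)
  choose h hh using htot
  refine ⟨⟨⟨h, fun x y => ?_⟩, fun r x => ?_⟩, ?_⟩
  · exact huniq _ _ _ (hh (x + y)) (G.add_mem (hh x) (hh y))
  · exact huniq _ _ _ (hh (r • x)) (G.smul_mem r (hh x))
  · ext a
    exact huniq _ _ _ (hh (f a)) (hG₀G ⟨a, rfl⟩)

/-- Linear compactness passes to submodules. -/
lemma LC.submodule {N : Type} [AddCommGroup N] [Module A N] (hN : LC A N) (P : Submodule A N) :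
    LC A P := by
  intro 𝒯 haff hint
  rcases 𝒯.eq_empty_or_nonempty with rfl | ⟨T₀, hT₀⟩
  · exact ⟨0, by simp⟩
  obtain ⟨z, hz⟩ := hN ((fun T => Subtype.val '' T) '' 𝒯)
    (by
      rintro _ ⟨T, hT, rfl⟩ _ ⟨x, hx, rfl⟩ _ ⟨y, hy, rfl⟩ _ ⟨w, hw, rfl⟩ r
      exact ⟨_, haff T hT x hx y hy w hw r, rfl⟩)
    (by
      rintro _ ⟨T, hT, rfl⟩ _ ⟨T', hT', rfl⟩
      obtain ⟨x, h1, h2⟩ := hint T hT T' hT'
      exact ⟨x, ⟨x, h1, rfl⟩, ⟨x, h2, rfl⟩⟩)
  obtain ⟨z₀, -, rfl⟩ := hz _ ⟨T₀, hT₀, rfl⟩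
  refine ⟨z₀, fun T hT => ?_⟩
  obtain ⟨x, hx, hxz⟩ := hz _ ⟨T, hT, rfl⟩
  rwa [← Subtype.val_injective hxz]

end Pool.Agent.MP_9f28a9_al
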