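import Mathlib.Algebra.DualNumber
import Mathlib.RingTheory.SimpleRing.Principal
import Mathlib.RingTheory.Henselian
import Mathlib.RingTheory.RegularLocalRing.Defs
import Pool.Agent.MP_9f28a9_al.PureInj

set_option autoImplicit false

namespace Pool.Agent.MP_9f28a9_al

open TrivSqZeroExt DualNumber

/-! ### General facts on pp formulas -/

section pp
variable {S : Type} [Ring S]

lemma PP.sol_map (φ : PP S) {M M' : Type} [AddCommGroup M] [Module S M] [AddCommGroup M']
    [Module S M'] (f : M →ₗ[S] M') {x : M} (hx : x ∈ φ.sol M) : f x ∈ φ.sol M' := by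
  obtain ⟨y, hy⟩ := hx
  refine ⟨fun i => f (y i), fun j => ?_⟩
  have := congrArg f (hy j)
  simpa [map_sum] using this

/-- The formula `r ∣ x`. -/
def ppDiv (r : S) : PP S := ⟨1, 1, fun _ => 1, fun _ _ => -r⟩

/-- The formula `r x = 0`. -/
def ppAnn (r : S) : PP S := ⟨1, 0, fun _ => r, fun _ i => i.elim0⟩

lemma mem_ppDiv (r : S) {M : Type} [AddCommGroup M] [Module S M] (x : M) :
    x ∈ (ppDiv r).sol M ↔ ∃ y, x = r • y := by
  constructor
  · rintro ⟨y, hy⟩
    have := hy (0 : Fin 1)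
    refine ⟨y (0 : Fin 1), ?_⟩
    change (1 : S) • x + ∑ i : Fin 1, (-r) • y i = 0 at this
    rw [Fin.sum_univ_one, one_smul, neg_smul, add_neg_eq_zero] at this
    exact this
  · rintro ⟨y, rfl⟩
    refine ⟨fun _ => y, fun _ => ?_⟩
    change (1 : S) • r • y + ∑ _ : Fin 1, (-r) • y = 0
    simp

lemma mem_ppAnn (r : S) {M : Type} [AddCommGroup M] [Module S M] (x : M) :
    x ∈ (ppAnn r).sol M ↔ r • x = 0 := by
  constructor
  · rintro ⟨y, hy⟩
    have := hy (0 : Fin 1)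
    change r • x + ∑ i : Fin 0, _ = 0 at this
    simpa using this
  · intro h
    refine ⟨fun i => Fin.elim0 i, fun _ => ?_⟩
    change r • x + ∑ i : Fin 0, _ = 0
    simpa using h

/-- The pair `x = x / r ∣ x`. -/
def pairSurj (r : S) : PPPair S := ⟨ppAnn 0, ppDiv r, fun _ _ _ x _ => by simp [mem_ppAnn]⟩

/-- The pair `r x = 0 / x = 0`. -/
def pairInj (r : S) : PPPair S := ⟨ppAnn r, ppAnn 1, fun _ _ _ x hx => by
  rw [mem_ppAnn, one_smul] at hx
  simp [mem_ppAnn, hx]⟩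

/-- The pair `r ∣ x / x = 0`. -/
def pairIm (r : S) : PPPair S := ⟨ppDiv r, ppAnn 1, fun _ _ _ x hx => by
  rw [mem_ppAnn, one_smul] at hx
  exact (mem_ppDiv r x).2 ⟨0, by simp [hx]⟩⟩

/-- The pair `r x = 0 / r ∣ x`, for `r * r = 0`. -/
def pairHom (r : S) (h : r * r = 0) : PPPair S := ⟨ppAnn r, ppDiv r, fun _ _ _ x hx => by
  obtain ⟨y, rfl⟩ := (mem_ppDiv r x).1 hx
  rw [mem_ppAnn, ← mul_smul, h, zero_smul]⟩

/-- The pair `p` is closed on `M`. -/
def PPPair.Closed (p : PPPair S) (M : Type) [AddCommGroup M] [Module S M] : Prop :=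
  p.φ.sol M ⊆ p.ψ.sol M

lemma PPPair.ssubset_iff (p : PPPair S) (M : Type) [AddCommGroup M] [Module S M] :
    p.ψ.sol M ⊂ p.φ.sol M ↔ ¬ p.Closed M :=
  ⟨fun h => h.2, fun h => ⟨p.le M, h⟩⟩

lemma PPPair.Closed.equiv {p : PPPair S} {M M' : Type} [AddCommGroup M] [Module S M]
    [AddCommGroup M'] [Module S M'] (e : M ≃ₗ[S] M') (h : p.Closed M) : p.Closed M' := by
  intro x hx
  have h1 := h (p.φ.sol_map e.symm.toLinearMap hx)
  simpa using p.ψ.sol_map e.toLinearMap h1

lemma PPPair.mk_mem_supp (p : PPPair S) (N : Pinj S) :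
    Quotient.mk (isoSetoid S) N ∈ p.supp ↔ ¬ p.Closed N.1 := by
  constructor
  · rintro ⟨N', hN', h⟩ hc
    obtain ⟨e⟩ : Nonempty (N'.1 ≃ₗ[S] N.1) := Quotient.exact hN'
    exact (p.ssubset_iff _).1 h (hc.equiv e.symm)
  · intro h
    exact ⟨N, rfl, (p.ssubset_iff _).2 h⟩

end pp

/-! ### The modules over the trivial extension -/

/-- `A` is (a copy of) the subring `D ⊕ K ε` of the dual numbers over `K`. -/
structure Setup (K : Type) [Field K] (D : Subring K) (A : Type) [CommRing A]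
    [Algebra A (DualNumber K)] : Prop where
  inj : Function.Injective (algebraMap A (DualNumber K))
  range : ∀ z : DualNumber K, z.fst ∈ D ↔ ∃ r : A, algebraMap A (DualNumber K) r = z
  val : ∀ x : K, x ∈ D ∨ x⁻¹ ∈ D
  lc : LC D K
  ng : ∀ d : K, d ≠ 0 → ∃ q : K, ∀ n : ℕ, d ^ n * q ∉ D

variable {K : Type} [Field K] {D : Subring K} {A : Type} [CommRing A] [Algebra A (DualNumber K)]

lemma Setup.fst_mem (H : Setup K D A) (r : A) : (algebraMap A (DualNumber K) r).fst ∈ D :=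
  (H.range _).2 ⟨r, rfl⟩

/-- The module `D[1/d] ⊕ K ε`. -/
def Setup.N (H : Setup K D A) (d : D) : Submodule A (DualNumber K) where
  carrier := {z | ∃ n : ℕ, (d : K) ^ n * z.fst ∈ D}
  add_mem' := by
    rintro a b ⟨n, hn⟩ ⟨m, hm⟩
    refine ⟨n + m, ?_⟩
    have : (d : K) ^ (n + m) * (a + b).fst =
        (d : K) ^ m * ((d : K) ^ n * a.fst) + (d : K) ^ n * ((d : K) ^ m * b.fst) := by
      rw [fst_add]; ring
    rw [this]
    exact add_mem (mul_mem (pow_mem d.2 m) hn) (mul_mem (pow_mem d.2 n) hm)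
  zero_mem' := ⟨0, by simp⟩
  smul_mem' := by
    rintro r z ⟨n, hn⟩
    refine ⟨n, ?_⟩
    rw [Algebra.smul_def, fst_mul, mul_left_comm]
    exact mul_mem (H.fst_mem r) hn

lemma Setup.mem_N (H : Setup K D A) (d : D) (z : DualNumber K) :
    z ∈ H.N d ↔ ∃ n : ℕ, (d : K) ^ n * z.fst ∈ D := Iff.rfl

lemma Setup.lc_dual (H : Setup K D A) : LC A (DualNumber K) := by
  intro 𝒯 haff hint
  obtain ⟨a, ha⟩ := H.lc ((fun T => fst '' T) '' 𝒯)
    (by
      rintro _ ⟨T, hT, rfl⟩ _ ⟨x, hx, rfl⟩ _ ⟨y, hy, rfl⟩ _ ⟨w, hw, rfl⟩ r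
      obtain ⟨s, hs⟩ := (H.range (inl (r : K))).1 (by simp)
      refine ⟨_, haff T hT x hx y hy w hw s, ?_⟩
      rw [Algebra.smul_def, hs, Subring.smul_def]
      simp)
    (by
      rintro _ ⟨T, hT, rfl⟩ _ ⟨T', hT', rfl⟩
      obtain ⟨x, h1, h2⟩ := hint T hT T' hT'
      exact ⟨x.fst, ⟨x, h1, rfl⟩, ⟨x, h2, rfl⟩⟩)
  have ha' : ∀ T ∈ 𝒯, ∃ x ∈ T, fst x = a := fun T hT => ha _ ⟨T, hT, rfl⟩
  -- if two elements of `T` have different first coordinates, every second coordinate occurs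
  have hbig : ∀ T ∈ 𝒯, ∀ x ∈ T, fst x ≠ a → ∀ q : K, (inl a + inr q : DualNumber K) ∈ T := by
    intro T hT x hx hxa q
    obtain ⟨w, hw, hwa⟩ := ha' T hT
    obtain ⟨s, hs⟩ := (H.range (inr ((q - w.snd) / (x.fst - a)))).1 (by simp)
    have := haff T hT w hw x hx w hw s
    rw [Algebra.smul_def, hs] at this
    convert this using 1
    have hne : x.fst - a ≠ 0 := sub_ne_zero.2 hxa
    ext
    · simp [hwa]
    · simp [hwa]
      field_simp
      ring
  have hsplit : ∀ x : DualNumber K, x.fst = a → x = inl a + inr x.snd := by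
    intro x hx
    ext <;> simp [hx]
  obtain ⟨q, hq⟩ := H.lc ((fun T => {q : K | (inl a + inr q : DualNumber K) ∈ T}) '' 𝒯)
    (by
      rintro _ ⟨T, hT, rfl⟩ x hx y hy w hw r
      obtain ⟨s, hs⟩ := (H.range (inl (r : K))).1 (by simp)
      have := haff T hT _ hx _ hy _ hw s
      rw [Algebra.smul_def, hs] at this
      simp only [Set.mem_ofPred_eq]
      convert this using 1
      rw [Subring.smul_def]
      ext <;> simp)
    (by
      rintro _ ⟨T, hT, rfl⟩ _ ⟨T', hT', rfl⟩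
      obtain ⟨x, h1, h2⟩ := hint T hT T' hT'
      by_cases hx : x.fst = a
      · refine ⟨x.snd, ?_, ?_⟩
        · simp only [Set.mem_ofPred_eq]; rwa [← hsplit x hx]
        · simp only [Set.mem_ofPred_eq]; rwa [← hsplit x hx]
      · exact ⟨0, hbig T hT x h1 hx 0, hbig T' hT' x h2 hx 0⟩)
  exact ⟨inl a + inr q, fun T hT => hq _ ⟨T, hT, rfl⟩⟩

lemma Setup.pureInjective (H : Setup K D A) (d : D) : IsPureInjective A (H.N d) :=
  isPureInjective_of_LC (H.lc_dual.submodule _)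

lemma Setup.exists_inr (H : Setup K D A) {z : DualNumber K} (hz : z ≠ 0) :
    ∃ r : A, ∃ q : K, q ≠ 0 ∧ r • z = inr q := by
  by_cases h : z.fst = 0
  · refine ⟨1, z.snd, fun h' => hz (by ext <;> simp [h, h']), ?_⟩
    rw [one_smul]; ext <;> simp [h]
  · obtain ⟨s, hs⟩ := (H.range (inr 1)).1 (by simp)
    refine ⟨s, z.fst, h, ?_⟩
    rw [Algebra.smul_def, hs]; ext <;> simp

lemma Setup.indecomposable (H : Setup K D A) (d : D) : IsIndecomposable A (H.N d) := by
  refine ⟨⟨⟨⟨1, 0, by simp⟩, 0, fun h => one_ne_zero (congrArg Subtype.val h)⟩⟩, ?_⟩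
  intro P Q hPQ
  by_contra hcon
  push Not at hcon
  obtain ⟨x, hxP, hx⟩ := (Submodule.ne_bot_iff P).1 hcon.1
  obtain ⟨y, hyQ, hy⟩ := (Submodule.ne_bot_iff Q).1 hcon.2
  obtain ⟨r, q, hq, hr⟩ := H.exists_inr (z := x.1) (fun h => hx (Subtype.ext h))
  obtain ⟨r', q', hq', hr'⟩ := H.exists_inr (z := y.1) (fun h => hy (Subtype.ext h))
  have hdis := Submodule.disjoint_def.1 hPQ.disjoint
  rcases H.val (q / q') with h | h
  · obtain ⟨s, hs⟩ := (H.range (inl (q / q'))).1 (by simpa using h)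
    have heq : r • x = s • r' • y := by
      apply Subtype.ext
      change r • x.1 = s • r' • y.1
      rw [hr, hr', Algebra.smul_def, hs]
      ext
      · simp
      · simp
        field_simp
    have h0 := hdis (r • x) (P.smul_mem r hxP) (heq ▸ Q.smul_mem s (Q.smul_mem r' hyQ))
    have h1 : r • x.1 = 0 := congrArg Subtype.val h0
    rw [hr] at h1
    exact hq (by simpa using congrArg snd h1)
  · rw [inv_div] at h
    obtain ⟨s, hs⟩ := (H.range (inl (q' / q))).1 (by simpa using h)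
    have heq : r' • y = s • r • x := by
      apply Subtype.ext
      change r' • y.1 = s • r • x.1
      rw [hr, hr', Algebra.smul_def, hs]
      ext
      · simp
      · simp
        field_simp
    have h0 := hdis (r' • y) (heq ▸ P.smul_mem s (P.smul_mem r hxP)) (Q.smul_mem r' hyQ)
    have h1 : r' • y.1 = 0 := congrArg Subtype.val h0
    rw [hr'] at h1
    exact hq' (by simpa using congrArg snd h1)

lemma Setup.closed_mul (H : Setup K D A) (p : PPPair A) (d e : D) (he : (e : K) ≠ 0)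
    (h : p.Closed (H.N d)) : p.Closed (H.N (d * e)) := by
  rintro x ⟨y, hy⟩
  -- a common exponent
  have hmono : ∀ (z : DualNumber K) (n m : ℕ), n ≤ m → ((d * e : D) : K) ^ n * z.fst ∈ D →
      ((d * e : D) : K) ^ m * z.fst ∈ D := by
    intro z n m hnm hz
    obtain ⟨k, rfl⟩ := Nat.exists_eq_add_of_le hnm
    rw [pow_add, mul_right_comm]
    exact mul_mem hz (pow_mem (d * e).2 k)
  obtain ⟨n₀, hn₀⟩ := x.2
  choose ny hny using fun i => (y i).2
  let n := n₀ + ∑ i, ny i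
  have hx' : ((d * e : D) : K) ^ n * x.1.fst ∈ D := hmono _ _ _ (Nat.le_add_right _ _) hn₀
  have hy' : ∀ i, ((d * e : D) : K) ^ n * (y i).1.fst ∈ D := fun i =>
    hmono _ _ _ ((Finset.single_le_sum (f := ny) (fun _ _ => Nat.zero_le _)
      (Finset.mem_univ i)).trans (Nat.le_add_left _ _)) (hny i)
  have hdown : ∀ z : DualNumber K, ((d * e : D) : K) ^ n * z.fst ∈ D →
      inl ((e : K) ^ n) * z ∈ H.N d := by
    intro z hz
    refine ⟨n, ?_⟩
    convert hz using 1
    simp [mul_pow, mul_assoc]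
  have hφ : (⟨_, hdown _ hx'⟩ : H.N d) ∈ p.φ.sol (H.N d) := by
    refine ⟨fun i => ⟨_, hdown _ (hy' i)⟩, fun j => ?_⟩
    apply Subtype.ext
    have h1 := congrArg (fun z : H.N (d * e) => (inl ((e : K) ^ n) : DualNumber K) * z.1) (hy j)
    simp only [Submodule.coe_add, Submodule.coe_sum, Submodule.coe_smul, Submodule.coe_zero,
      mul_zero, mul_add, Finset.mul_sum, mul_smul_comm] at h1 ⊢
    exact h1
  have hψ := h hφ
  let u : H.N d →ₗ[A] H.N (d * e) :=
    LinearMap.codRestrict _ ((LinearMap.mul A (DualNumber K) (inl ((e : K)⁻¹ ^ n))) ∘ₗ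
      (H.N d).subtype) (by
        rintro ⟨z, m, hm⟩
        refine ⟨m + n, ?_⟩
        have : ((d * e : D) : K) ^ (m + n) * (inl ((e : K)⁻¹ ^ n) * z : DualNumber K).fst =
            ((d : K) ^ n * (e : K) ^ m) * ((d : K) ^ m * z.fst) := by
          simp only [Subring.coe_mul, fst_mul, fst_inl, mul_pow, pow_add, inv_pow]
          field_simp
        change ((d * e : D) : K) ^ (m + n) * (inl ((e : K)⁻¹ ^ n) * z : DualNumber K).fst ∈ D
        rw [this]
        exact mul_mem (mul_mem (pow_mem d.2 n) (pow_mem e.2 m)) hm)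
  have := p.ψ.sol_map u hψ
  convert this using 1
  apply Subtype.ext
  change x.1 = inl ((e : K)⁻¹ ^ n) * (inl ((e : K) ^ n) * x.1)
  rw [← mul_assoc, inl_mul_inl, ← mul_pow, inv_mul_cancel₀ he, one_pow, inl_one, one_mul]

lemma Setup.closed_surj (H : Setup K D A) (r : A) (hr : (algebraMap A (DualNumber K) r).fst ≠ 0) :
    (pairSurj r).Closed (H.N ⟨_, H.fst_mem r⟩) := by
  rintro ⟨z, n, hn⟩ -
  change _ ∈ (ppDiv r).sol _
  rw [mem_ppDiv]
  refine ⟨⟨(algebraMap A (DualNumber K) r)⁻¹ * z, n + 1, ?_⟩, ?_⟩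
  · convert hn using 1
    simp only [fst_mul, fst_inv, pow_succ]
    field_simp
  · apply Subtype.ext
    change z = r • ((algebraMap A (DualNumber K) r)⁻¹ * z)
    rw [Algebra.smul_def, ← mul_assoc, TrivSqZeroExt.mul_inv_cancel hr, one_mul]

lemma Setup.closed_inj (H : Setup K D A) (d : D) (r : A)
    (hr : (algebraMap A (DualNumber K) r).fst ≠ 0) : (pairInj r).Closed (H.N d) := by
  intro z hz
  change _ ∈ (ppAnn r).sol _ at hz
  change _ ∈ (ppAnn 1).sol _
  rw [mem_ppAnn] at hz ⊢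
  rw [one_smul]
  apply Subtype.ext
  have h1 : r • z.1 = 0 := congrArg Subtype.val hz
  rw [Algebra.smul_def] at h1
  have h2 := congrArg (fun w => (algebraMap A (DualNumber K) r)⁻¹ * w) h1
  simp only [← mul_assoc, TrivSqZeroExt.inv_mul_cancel hr, one_mul, mul_zero] at h2
  exact h2

lemma Setup.open_im (H : Setup K D A) (d : D) (e : A)
    (he : algebraMap A (DualNumber K) e = inr 1) : ¬ (pairIm e).Closed (H.N d) := by
  intro h
  have h1 : e • (⟨1, 0, by simp⟩ : H.N d) ∈ (ppDiv e).sol (H.N d) := (mem_ppDiv _ _).2 ⟨_, rfl⟩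
  have h2 := h h1
  change _ ∈ (ppAnn 1).sol _ at h2
  rw [mem_ppAnn, one_smul] at h2
  have h3 : e • (1 : DualNumber K) = 0 := congrArg Subtype.val h2
  rw [Algebra.smul_def, he, mul_one] at h3
  simpa using congrArg snd h3

lemma Setup.open_hom (H : Setup K D A) (d : D) (hd : (d : K) ≠ 0) (e : A)
    (he : algebraMap A (DualNumber K) e = inr 1) (hee : e * e = 0) :
    ¬ (pairHom e hee).Closed (H.N d) := by
  intro h
  obtain ⟨q, hq⟩ := H.ng d hd
  have h1 : (⟨inr q, 0, by simp⟩ : H.N d) ∈ (ppAnn e).sol (H.N d) := by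
    rw [mem_ppAnn]
    apply Subtype.ext
    change e • (inr q : DualNumber K) = 0
    rw [Algebra.smul_def, he, inr_mul_inr]
  have h2 := h h1
  change _ ∈ (ppDiv e).sol _ at h2
  obtain ⟨⟨y, n, hn⟩, hy⟩ := (mem_ppDiv _ _).1 h2
  have h3 : (inr q : DualNumber K) = e • y := congrArg Subtype.val hy
  rw [Algebra.smul_def, he] at h3
  have h4 : q = y.fst := by simpa using congrArg snd h3
  exact hq n (h4 ▸ hn)

end Pool.Agent.MP_9f28a9_al
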