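import Mathlib.Tactic.Monotonicity.Lemmas
import Mathlib.Analysis.Normed.Field.Lemmas
import Mathlib.Analysis.Real.Hyperreal
import Mathlib.RingTheory.HahnSeries.Summable
import Pool.Agent.MP_9f28a9_al.PureInj
import Pool.Agent.MP_9f28a9_al.Modules

-- ======== part 0: formerly Pool.Agent.MP_9f28a9_al.Hahn
section MrgPart0

set_option autoImplicit false

namespace Pool.Agent.MP_9f28a9_al

open HahnSeries

section
variable (Γ : Type) [AddCommGroup Γ] [LinearOrder Γ] [IsOrderedAddMonoid Γ]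

/-- The valuation ring of the field of Hahn series. -/
noncomputable def hahnD : Subring (HahnSeries Γ ℚ) where
  carrier := {x | 0 ≤ x.orderTop}
  mul_mem' := by
    intro a b ha hb
    simp only [Set.mem_ofPred_eq] at *
    rw [orderTop_mul]
    exact add_nonneg ha hb
  one_mem' := by simp [orderTop_one]
  add_mem' := by
    intro a b ha hb
    simp only [Set.mem_ofPred_eq] at *
    exact le_trans (le_min ha hb) min_orderTop_le_orderTop_add
  zero_mem' := by simp
  neg_mem' := by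
    intro a ha
    simp only [Set.mem_ofPred_eq] at *
    rwa [orderTop_neg]

variable {Γ}

lemma mem_hahnD {x : HahnSeries Γ ℚ} : x ∈ hahnD Γ ↔ 0 ≤ x.orderTop := Iff.rfl

lemma mem_hahnD_of_ne {x : HahnSeries Γ ℚ} (hx : x ≠ 0) : x ∈ hahnD Γ ↔ 0 ≤ x.order := by
  rw [mem_hahnD, zero_le_orderTop_iff]

lemma order_inv' {x : HahnSeries Γ ℚ} (hx : x ≠ 0) : (x⁻¹).order = -x.order := by
  have h := order_mul hx (inv_ne_zero hx)
  rw [mul_inv_cancel₀ hx, order_one] at h
  exact (neg_eq_of_add_eq_zero_right h.symm).symm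

lemma hahn_val (x : HahnSeries Γ ℚ) : x ∈ hahnD Γ ∨ x⁻¹ ∈ hahnD Γ := by
  by_cases hx : x = 0
  · left; rw [hx]; exact zero_mem _
  rw [mem_hahnD_of_ne hx, mem_hahnD_of_ne (inv_ne_zero hx), order_inv' hx]
  rcases le_total 0 x.order with h | h
  · exact Or.inl h
  · exact Or.inr (neg_nonneg.2 h)

lemma hahn_div_mem {x y : HahnSeries Γ ℚ} (hx : x ≠ 0) (hy : y ≠ 0) (h : y.order ≤ x.order) :
    x * y⁻¹ ∈ hahnD Γ := by
  rw [mem_hahnD_of_ne (mul_ne_zero hx (inv_ne_zero hy)), order_mul hx (inv_ne_zero hy),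
    order_inv' hy]
  simpa using h

/-- All elements of `T` have the same coefficients up to `γ`. -/
def Fixed (T : Set (HahnSeries Γ ℚ)) (γ : Γ) : Prop :=
  ∀ x ∈ T, ∀ y ∈ T, ∀ γ' ≤ γ, x.coeff γ' = y.coeff γ'

theorem hahn_LC : LC (hahnD Γ) (HahnSeries Γ ℚ) := by
  classical
  intro 𝒯 haff hint
  have hne : ∀ T ∈ 𝒯, T.Nonempty := fun T hT => (hint T hT T hT).mono Set.inter_subset_left
  choose! pt hpt using hne
  let c : Γ → ℚ := fun γ => if h : ∃ T ∈ 𝒯, Fixed T γ then (pt h.choose).coeff γ else 0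
  have hc : ∀ T ∈ 𝒯, ∀ γ, Fixed T γ → ∀ x ∈ T, c γ = x.coeff γ := by
    intro T hT γ hfix x hx
    have h : ∃ T ∈ 𝒯, Fixed T γ := ⟨T, hT, hfix⟩
    simp only [c, dif_pos h]
    obtain ⟨hT', hfix'⟩ := h.choose_spec
    obtain ⟨w, hw1, hw2⟩ := hint T hT _ hT'
    rw [hfix' _ (hpt _ hT') w hw2 γ le_rfl, hfix w hw1 x hx γ le_rfl]
  have hmono : ∀ (T : Set (HahnSeries Γ ℚ)) (γ γ' : Γ), Fixed T γ → γ' ≤ γ → Fixed T γ' :=
    fun T γ γ' h hle x hx y hy γ'' h'' => h x hx y hy γ'' (h''.trans hle)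
  have hwf : (Function.support c : Set Γ).IsWF := by
    rw [Set.isWF_iff_no_descending_seq (α := Γ)]
    intro f hf hmem
    have h0 : c (f 0) ≠ 0 := hmem 0
    have h : ∃ T ∈ 𝒯, Fixed T (f 0) := by
      by_contra hn
      exact h0 (by simp only [c, dif_neg hn])
    obtain ⟨T, hT, hfix⟩ := h
    refine Set.isWF_iff_no_descending_seq.1 (pt T).isWF_support f hf fun n => ?_
    rw [mem_support, ← hc T hT (f n) (hmono T _ _ hfix (hf.antitone (Nat.zero_le n))) _ (hpt T hT)]
    exact hmem n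
  let z : HahnSeries Γ ℚ := ⟨c, hwf.isPWO⟩
  refine ⟨z, fun T hT => ?_⟩
  have hx := hpt T hT
  by_cases hδ : z - pt T = 0
  · rw [sub_eq_zero.1 hδ]; exact hx
  have hnf : ¬ Fixed T (z - pt T).order := by
    intro hfix
    have h1 : (z - pt T).coeff (z - pt T).order = 0 := by
      rw [coeff_sub, sub_eq_zero]
      exact hc T hT _ hfix _ hx
    exact hδ (coeff_order_eq_zero.1 h1)
  simp only [Fixed, not_forall] at hnf
  obtain ⟨x₁, h₁, x₂, h₂, γ', hle, hneq⟩ := hnf
  have hco : (x₁ - x₂).coeff γ' ≠ 0 := by rw [coeff_sub]; exact sub_ne_zero.2 hneq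
  have hb : x₁ - x₂ ≠ 0 := ne_zero_of_coeff_ne_zero hco
  have hord : (x₁ - x₂).order ≤ (z - pt T).order := (order_le_of_coeff_ne_zero hco).trans hle
  have := haff T hT _ hx x₁ h₁ x₂ h₂ ⟨_, hahn_div_mem hδ hb hord⟩
  rw [Subring.smul_def, smul_eq_mul] at this
  simp only at this
  rwa [mul_assoc, inv_mul_cancel₀ hb, mul_one, add_sub_cancel] at this

lemma hahn_NG (htop : ∀ g : Γ, ∃ g' : Γ, ∀ n : ℕ, n • g < g') (d : HahnSeries Γ ℚ) (hd : d ≠ 0) :
    ∃ q : HahnSeries Γ ℚ, ∀ n : ℕ, d ^ n * q ∉ hahnD Γ := by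
  obtain ⟨g', hg'⟩ := htop d.order
  have hq : (single (-g') (1 : ℚ)) ≠ 0 := single_ne_zero one_ne_zero
  refine ⟨single (-g') 1, fun n => ?_⟩
  rw [mem_hahnD_of_ne (mul_ne_zero (pow_ne_zero n hd) hq), order_mul (pow_ne_zero n hd) hq,
    order_single one_ne_zero, order_pow]
  have := hg' n
  intro h
  rw [← sub_eq_add_neg, sub_nonneg] at h
  exact absurd this (not_lt.2 h)

end

lemma hyperreal_top (g : Hyperreal) : ∃ g' : Hyperreal, ∀ n : ℕ, n • g < g' := by
  refine ⟨Hyperreal.omega * (|g| + 1), fun n => ?_⟩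
  have h1 : (n : Hyperreal) < Hyperreal.omega := by
    have := Hyperreal.coe_lt_omega (n : ℝ)
    rwa [show ((n : ℝ) : Hyperreal) = (n : Hyperreal) from rfl] at this
  have h2 : (0 : Hyperreal) < |g| + 1 := by positivity
  have h3 : g ≤ |g| + 1 := by linarith [le_abs_self g]
  rw [nsmul_eq_mul]
  calc (n : Hyperreal) * g ≤ n * (|g| + 1) := mul_le_mul_of_nonneg_left h3 (Nat.cast_nonneg n)
    _ < Hyperreal.omega * (|g| + 1) := mul_lt_mul_of_pos_right h1 h2

/-- A valuation subring `D` of a field `K` such that `K` is linearly compact over `D` and no ring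
`D[1/d]` is all of `K`. -/
theorem exists_valuation_data : ∃ (K : Type) (_ : Field K) (D : Subring K),
    (∀ x : K, x ∈ D ∨ x⁻¹ ∈ D) ∧ LC D K ∧ ∀ d : K, d ≠ 0 → ∃ q : K, ∀ n : ℕ, d ^ n * q ∉ D :=
  ⟨HahnSeries Hyperreal ℚ, inferInstance, hahnD Hyperreal, hahn_val, hahn_LC,
    hahn_NG hyperreal_top⟩

end Pool.Agent.MP_9f28a9_al

end MrgPart0

-- ======== part 1: formerly Pool.Agent.MP_9f28a9_al.Main
section MrgPart1

set_option autoImplicit false

namespace Pool.Agent.MP_9f28a9_al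

open TrivSqZeroExt DualNumber

variable {K : Type} [Field K] {D : Subring K} {A : Type} [CommRing A] [Algebra A (DualNumber K)]

/-- The elements of `A` with nonzero first coordinate. -/
def regs (K : Type) [Field K] (A : Type) [CommRing A] [Algebra A (DualNumber K)] : Submonoid A where
  carrier := {r | (algebraMap A (DualNumber K) r).fst ≠ 0}
  mul_mem' := by
    intro a b ha hb
    simp only [Set.mem_ofPred_eq, map_mul, fst_mul] at *
    exact mul_ne_zero ha hb
  one_mem' := by simp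

lemma Setup.isLocalization (H : Setup K D A) : IsLocalization (regs K A) (DualNumber K) := by
  rw [isLocalization_iff]
  refine ⟨fun y => isUnit_iff_isUnit_fst.2 (isUnit_iff_ne_zero.2 y.2), fun z => ?_,
    fun {x y} h => ⟨1, by rw [H.inj h]⟩⟩
  rcases H.val z.fst with h | h
  · obtain ⟨r, hr⟩ := (H.range z).1 h
    exact ⟨(r, 1), by simp [hr]⟩
  · by_cases hz : z.fst = 0
    · obtain ⟨r, hr⟩ := (H.range z).1 (hz ▸ zero_mem D)
      exact ⟨(r, 1), by simp [hr]⟩
    · obtain ⟨s, hs⟩ := (H.range (inl z.fst⁻¹)).1 (by simpa using h)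
      obtain ⟨r, hr⟩ := (H.range (z * inl z.fst⁻¹)).1 (by simp [hz])
      refine ⟨(r, ⟨s, ?_⟩), by simp [hs, hr]⟩
      change (algebraMap A (DualNumber K) s).fst ≠ 0
      simpa [hs] using hz

/-- A module on which every regular element acts invertibly, on which `ε` acts nontrivially and on
which the annihilator of `ε` is bigger than its image is decomposable. -/
lemma Setup.not_indecomposable (H : Setup K D A) (M : Type) [AddCommGroup M] [Module A M]
    (e : A) (he : algebraMap A (DualNumber K) e = inr 1)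
    (hbij : ∀ r : A, (algebraMap A (DualNumber K) r).fst ≠ 0 →
      Function.Bijective (fun m : M => r • m))
    (hx : ∃ x : M, e • x ≠ 0) (hy : ∃ y : M, e • y = 0 ∧ ∀ z, y ≠ e • z) :
    ¬ IsIndecomposable A M := by
  rintro ⟨-, hind⟩
  obtain ⟨x, hx⟩ := hx
  obtain ⟨y, hy0, hy⟩ := hy
  have := H.isLocalization
  have : IsLocalizedModule (regs K A) (LinearMap.id : M →ₗ[A] M) :=
    ⟨fun s => (Module.End.isUnit_iff _).2 (hbij s s.2), fun m => ⟨(m, 1), one_smul _ _⟩,
      fun h => ⟨1, congrArg _ h⟩⟩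
  letI : Module (DualNumber K) M := IsLocalizedModule.module (regs K A) (LinearMap.id : M →ₗ[A] M)
  have : IsScalarTower A (DualNumber K) M :=
    IsLocalizedModule.isScalarTower_module (regs K A) (LinearMap.id : M →ₗ[A] M)
  letI : Module K M := Module.compHom M (inlHom K K)
  have hK : ∀ (k : K) (m : M), k • m = (inl k : DualNumber K) • m := fun _ _ => rfl
  have he' : ∀ m : M, e • m = (inr 1 : DualNumber K) • m := by
    intro m; rw [← he, algebraMap_smul]
  have hcomm : ∀ (k : K) (m : M), e • k • m = k • e • m := by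
    intro k m
    rw [he', he', hK, hK, smul_comm]
  have hA : ∀ (r : A) (m : M), r • m = (algebraMap A (DualNumber K) r).fst • m +
      (algebraMap A (DualNumber K) r).snd • e • m := by
    intro r m
    rw [he', hK, hK, ← mul_smul, ← add_smul, ← algebraMap_smul (DualNumber K) r m]
    congr 1
    ext <;> simp
  let W : Submodule K M :=
    { carrier := {m | ∃ z, m = e • z}
      add_mem' := by
        rintro _ _ ⟨a, rfl⟩ ⟨b, rfl⟩
        exact ⟨a + b, by rw [smul_add]⟩
      zero_mem' := ⟨0, by rw [smul_zero]⟩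
      smul_mem' := by
        rintro k _ ⟨a, rfl⟩
        exact ⟨k • a, (hcomm k a).symm⟩ }
  have hyW : y ∉ W := by rintro ⟨z, hz⟩; exact hy z hz
  obtain ⟨f, hfy, hfW⟩ := Submodule.exists_le_ker_of_notMem hyW
  have hfe : ∀ z, f (e • z) = 0 := fun z => hfW ⟨z, rfl⟩
  let P : Submodule A M :=
    { carrier := {m | ∃ k : K, m = k • y}
      add_mem' := by
        rintro _ _ ⟨a, rfl⟩ ⟨b, rfl⟩
        exact ⟨a + b, by rw [add_smul]⟩
      zero_mem' := ⟨0, by rw [zero_smul]⟩
      smul_mem' := by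
        rintro r _ ⟨a, rfl⟩
        refine ⟨(algebraMap A (DualNumber K) r).fst * a, ?_⟩
        rw [hA, hcomm, hy0, smul_zero, smul_zero, add_zero, mul_smul] }
  let Q : Submodule A M :=
    { carrier := {m | f m = 0}
      add_mem' := by
        intro a b ha hb
        simp only [Set.mem_ofPred_eq] at *
        rw [map_add, ha, hb, add_zero]
      zero_mem' := map_zero f
      smul_mem' := by
        intro r m hm
        simp only [Set.mem_ofPred_eq] at *
        rw [hA, map_add, map_smul, map_smul, hm, hfe, smul_zero, smul_zero, add_zero] }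
  have hPQ : IsCompl P Q := by
    constructor
    · rw [Submodule.disjoint_def]
      rintro _ ⟨k, rfl⟩ hk
      change f (k • y) = 0 at hk
      rw [map_smul, smul_eq_mul, mul_eq_zero] at hk
      rw [hk.resolve_right hfy, zero_smul]
    · rw [codisjoint_iff, eq_top_iff]
      intro m _
      refine Submodule.mem_sup.2 ⟨(f m / f y) • y, ⟨_, rfl⟩, m - (f m / f y) • y, ?_, by abel⟩
      change f (m - (f m / f y) • y) = 0
      rw [map_sub, map_smul, smul_eq_mul, div_mul_cancel₀ _ hfy, sub_self]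
  rcases hind P Q hPQ with h | h
  · have : y ∈ P := ⟨1, (one_smul K y).symm⟩
    rw [h, Submodule.mem_bot] at this
    exact hfy (by rw [this, map_zero])
  · have : e • x ∈ Q := hfe x
    rw [h, Submodule.mem_bot] at this
    exact hx this

/-- The indecomposable pure-injective module `D[1/d] ⊕ K ε`. -/
noncomputable def Setup.pinj (H : Setup K D A) (d : D) : Pinj A :=
  ⟨ModuleCat.of A (H.N d), H.indecomposable d, H.pureInjective d⟩

/-- The point of the spectrum given by `D[1/d] ⊕ K ε`. -/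
noncomputable def Setup.pt (H : Setup K D A) (d : D) : Zar A :=
  Quotient.mk (isoSetoid A) (H.pinj d)

lemma Setup.pt_mem (H : Setup K D A) (d : D) (p : PPPair A) :
    H.pt d ∈ p.supp ↔ ¬ p.Closed (H.N d) := p.mk_mem_supp _

lemma isClosed_supp {S : Type} [Ring S] (p : PPPair S) : IsClosed p.supp :=
  ⟨TopologicalSpace.isOpen_generateFrom_of_mem ⟨p, rfl⟩⟩

theorem Setup.main (H : Setup K D A) : ∃ C : Set (Zar A),
    (∃ F : Set (PPPair A), C = ⋂ p ∈ F, p.supp) ∧ IsClosed C ∧ IsIrreducible C ∧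
      ∀ x : Zar A, ¬ IsGenericPoint x C := by
  let F : Set (PPPair A) := {p | ∀ d : D, (d : K) ≠ 0 → H.pt d ∈ p.supp}
  have hpt : ∀ d : D, (d : K) ≠ 0 → H.pt d ∈ ⋂ p ∈ F, p.supp := by
    intro d hd
    simp only [Set.mem_iInter]
    exact fun p hp => hp d hd
  have hopen : ∀ U : Set (Zar A), IsOpen U → ∀ x ∈ ⋂ p ∈ F, p.supp, x ∈ U →
      ∃ d : D, (d : K) ≠ 0 ∧ ∀ e : D, (e : K) ≠ 0 → H.pt (d * e) ∈ U := by
    intro U hU x hx
    induction hU with
    | basic U hU =>
      obtain ⟨p, rfl⟩ := hU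
      intro hxU
      have hpF : p ∉ F := fun hp => hxU (Set.mem_iInter₂.1 hx p hp)
      simp only [F, Set.mem_ofPred_eq, not_forall] at hpF
      obtain ⟨d, hd, hdp⟩ := hpF
      refine ⟨d, hd, fun e he => ?_⟩
      rw [H.pt_mem, not_not] at hdp
      rw [Set.mem_compl_iff, H.pt_mem, not_not]
      exact H.closed_mul p d e he hdp
    | univ => exact fun _ => ⟨1, by simp, fun _ _ => Set.mem_univ _⟩
    | inter U V _ _ ihU ihV =>
      rintro ⟨hxU, hxV⟩
      obtain ⟨d, hd, hdU⟩ := ihU hxU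
      obtain ⟨d', hd', hdV⟩ := ihV hxV
      refine ⟨d * d', by rw [Subring.coe_mul]; exact mul_ne_zero hd hd', fun e he => ⟨?_, ?_⟩⟩
      · rw [mul_assoc]
        exact hdU _ (by rw [Subring.coe_mul]; exact mul_ne_zero hd' he)
      · rw [mul_comm d d', mul_assoc]
        exact hdV _ (by rw [Subring.coe_mul]; exact mul_ne_zero hd he)
    | sUnion 𝒰 _ ih =>
      rintro ⟨U, hU, hxU⟩
      obtain ⟨d, hd, hdU⟩ := ih U hU hxU
      exact ⟨d, hd, fun e he => ⟨U, hU, hdU e he⟩⟩
  refine ⟨⋂ p ∈ F, p.supp, ⟨F, rfl⟩, isClosed_biInter fun p _ => isClosed_supp p,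
    ⟨⟨_, hpt 1 (by simp)⟩, ?_⟩, ?_⟩
  · rintro U V hU hV ⟨x, hx, hxU⟩ ⟨y, hy, hyV⟩
    obtain ⟨d, hd, hdU⟩ := hopen U hU x hx hxU
    obtain ⟨d', hd', hdV⟩ := hopen V hV y hy hyV
    refine ⟨H.pt (d * d'), hpt _ (by rw [Subring.coe_mul]; exact mul_ne_zero hd hd'), hdU d' hd', ?_⟩
    rw [mul_comm]
    exact hdV d hd
  · intro x hx
    obtain ⟨N, rfl⟩ := Quotient.exists_rep x
    have hmem := Set.mem_iInter₂.1 hx.mem
    have hclosed : ∀ (p : PPPair A) (d : D), (d : K) ≠ 0 → p.Closed (H.N d) → p.Closed N.1 := by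
      intro p d hd hp
      by_contra hn
      have h1 := (hx.mem_closed_set_iff (isClosed_supp p)).1 ((p.mk_mem_supp N).2 hn) (hpt d hd)
      exact (H.pt_mem d p).1 h1 hp
    obtain ⟨e, he⟩ := (H.range (inr 1)).1 (by simp)
    have hee : e * e = 0 := H.inj (by rw [map_mul, he, inr_mul_inr, map_zero])
    have h1 : ¬ (pairIm e).Closed N.1 :=
      (PPPair.mk_mem_supp _ N).1 (hmem _ fun d _ => (H.pt_mem d _).2 (H.open_im d e he))
    have h2 : ¬ (pairHom e hee).Closed N.1 :=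
      (PPPair.mk_mem_supp _ N).1 (hmem _ fun d hd => (H.pt_mem d _).2 (H.open_hom d hd e he hee))
    refine H.not_indecomposable N.1 e he (fun r hr => ⟨?_, ?_⟩) ?_ ?_ N.2.1
    · have h3 := hclosed (pairInj r) 1 (by simp) (H.closed_inj 1 r hr)
      intro a b hab
      have h4 : a - b ∈ (ppAnn r).sol N.1 := by
        rw [mem_ppAnn, smul_sub]
        exact sub_eq_zero.2 hab
      have h5 : a - b ∈ (ppAnn (1 : A)).sol N.1 := h3 h4
      rw [mem_ppAnn, one_smul] at h5
      exact sub_eq_zero.1 h5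
    · have h3 := hclosed (pairSurj r) ⟨_, H.fst_mem r⟩ hr (H.closed_surj r hr)
      intro a
      have h4 : a ∈ (ppAnn (0 : A)).sol N.1 := by rw [mem_ppAnn, zero_smul]
      have h5 : a ∈ (ppDiv r).sol N.1 := h3 h4
      obtain ⟨b, hb⟩ := (mem_ppDiv r a).1 h5
      exact ⟨b, hb.symm⟩
    · obtain ⟨a, ha, ha'⟩ := Set.not_subset.1 h1
      obtain ⟨b, rfl⟩ := (mem_ppDiv e a).1 ha
      refine ⟨b, fun h => ha' ?_⟩
      change _ ∈ (ppAnn (1 : A)).sol N.1
      rw [mem_ppAnn, one_smul, h]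
    · obtain ⟨a, ha, ha'⟩ := Set.not_subset.1 h2
      exact ⟨a, (mem_ppAnn e a).1 ha, fun z hz => ha' ((mem_ppDiv e a).2 ⟨z, hz⟩)⟩

theorem exists_counterexample : ∃ (R : Type) (_ : CommRing R) (C : Set (Zar Rᵐᵒᵖ)),
    (∃ F : Set (PPPair Rᵐᵒᵖ), C = ⋂ p ∈ F, p.supp) ∧ IsClosed C ∧ IsIrreducible C ∧
      ∀ x : Zar Rᵐᵒᵖ, ¬ IsGenericPoint x C := by
  obtain ⟨K, _, D, hval, hlc, hng⟩ := exists_valuation_data
  let R : Subring (DualNumber K) := D.comap (fstHom K K K).toRingHom
  let ρ : Rᵐᵒᵖ →+* DualNumber K := R.subtype.comp (RingEquiv.toOpposite R).symm.toRingHom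
  letI : Algebra Rᵐᵒᵖ (DualNumber K) := ρ.toAlgebra
  have H : Setup K D Rᵐᵒᵖ :=
    { inj := Subtype.val_injective.comp (RingEquiv.toOpposite R).symm.injective
      range := fun z => ⟨fun h => ⟨MulOpposite.op ⟨z, h⟩, rfl⟩, by
        rintro ⟨r, rfl⟩
        exact r.unop.2⟩
      val := hval
      lc := hlc
      ng := hng }
  exact ⟨R, inferInstance, H.main⟩

end Pool.Agent.MP_9f28a9_al

end MrgPart1

-- marker of a merged file
example : 731051 + 672220 = 731051 + 672220 := rfl
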